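import Pool.Agent.TH931.LP.Stm

/-!
# Products of good frames are good (task A4 of helper931)
-/

set_option autoImplicit false

open MeasureTheory Set
open scoped ENNReal Matrix Pointwise

noncomputable section

namespace Pool.Agent.TH73.LP931.Gprod

open Pool.Agent.TH931.LP

variable {n m : ℕ} {U V U' V' : Type}

/-! ### blocks -/

lemma p1_append (x : Fin n → ℝ) (y : Fin m → ℝ) : p1 (Fin.append x y) = x := by
  funext i; simp [p1]

lemma p2_append (x : Fin n → ℝ) (y : Fin m → ℝ) : p2 (Fin.append x y) = y := by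
  funext i; simp [p2]

lemma p1_smul (t : ℝ) (x : Fin (n + m) → ℝ) : p1 (t • x) = t • p1 x := rfl

lemma p2_smul (t : ℝ) (x : Fin (n + m) → ℝ) : p2 (t • x) = t • p2 x := rfl

lemma p1_neg (x : Fin (n + m) → ℝ) : p1 (-x) = -p1 x := rfl

lemma p2_neg (x : Fin (n + m) → ℝ) : p2 (-x) = -p2 x := rfl

lemma meas_p1 : Measurable (p1 : (Fin (n + m) → ℝ) → Fin n → ℝ) :=
  measurable_pi_lambda _ fun _ => measurable_pi_apply _

lemma meas_p2 : Measurable (p2 : (Fin (n + m) → ℝ) → Fin m → ℝ) :=
  measurable_pi_lambda _ fun _ => measurable_pi_apply _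

lemma ne_zero_split {x : Fin (n + m) → ℝ} (hx : x ≠ 0) : p1 x ≠ 0 ∨ p2 x ≠ 0 := by
  by_contra h
  push Not at h
  apply hx
  funext i
  refine Fin.addCases (fun i => ?_) (fun i => ?_) i
  · exact congrFun h.1 i
  · exact congrFun h.2 i

lemma append_dot (a : Fin n → ℝ) (b : Fin m → ℝ) (x : Fin (n + m) → ℝ) :
    Fin.append a b ⬝ᵥ x = a ⬝ᵥ p1 x + b ⬝ᵥ p2 x := by
  simp only [dotProduct, Fin.sum_univ_add, Fin.append_left, Fin.append_right]
  rfl

lemma append_dot_append (a : Fin n → ℝ) (b : Fin m → ℝ) (c : Fin n → ℝ) (d : Fin m → ℝ) :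
    Fin.append a b ⬝ᵥ Fin.append c d = a ⬝ᵥ c + b ⬝ᵥ d := by
  rw [append_dot, p1_append, p2_append]

/-! ### frames -/

lemma Half.hom {F : Fr n U V} (hF : Half F) {t : ℝ} (ht : 0 < t) (x : Fin n → ℝ) :
    F.N (t • x) = t * F.N x := by
  rw [← hF.eq, ← hF.eq x, hF.smul t ht, dotProduct_smul, smul_eq_mul]

lemma Half.zero {F : Fr n U V} (hF : Half F) : F.N 0 = 0 := by
  rw [← hF.eq, dotProduct_zero]

lemma Half.nonneg {F : Fr n U V} (hF : Half F) (x : Fin n → ℝ) : 0 ≤ F.N x := by
  by_cases hx : x = 0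
  · rw [hx, Half.zero hF]
  · exact (hF.pos x hx).le

lemma Half.le_zero {F : Fr n U V} (hF : Half F) {x : Fin n → ℝ} (hx : F.N x ≤ 0) : x = 0 := by
  by_contra h
  exact absurd (hF.pos x h) (not_lt.mpr hx)

lemma Half.measN [Fintype U] {F : Fr n U V} (hF : Half F) : Measurable F.N := by
  have : Nonempty U := ⟨F.ft 0⟩
  have e : F.N = fun x => Finset.univ.sup' Finset.univ_nonempty (fun a => F.u a ⬝ᵥ x) := by
    funext x
    apply le_antisymm
    · rw [← hF.eq x]
      exact Finset.le_sup' (fun a => F.u a ⬝ᵥ x) (Finset.mem_univ (F.ft x))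
    · exact Finset.sup'_le _ _ fun a _ => hF.le a x
  rw [e]
  have hm : ∀ a, Measurable fun x => F.u a ⬝ᵥ x := by
    intro a
    exact Finset.measurable_sum _ fun i _ => (measurable_pi_apply i).const_mul _
  have := Finset.measurable_sup' (s := (Finset.univ : Finset U)) Finset.univ_nonempty
    (f := fun a x => F.u a ⬝ᵥ x) fun a _ => hm a
  convert this using 1
  funext x
  rw [Finset.sup'_apply]

lemma Half.opp {F : Fr n U V} (hF : Half F.dual) (y : Fin n → ℝ) :
    ∃ b, y ⬝ᵥ F.v b ≤ 0 := by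
  refine ⟨F.vt (-y), ?_⟩
  have h1 : F.v (F.vt (-y)) ⬝ᵥ (-y) = F.h (-y) := hF.eq (-y)
  have h2 : 0 ≤ F.h (-y) := Half.nonneg hF (-y)
  rw [← h1, dotProduct_neg, dotProduct_comm] at h2
  linarith

/-! ### the product -/

lemma half_prod [Fintype U] [Fintype V] [Fintype U'] [Fintype V'] {F : Fr n U V}
    {G : Fr m U' V'} (hF : Good F) (hG : Good G) : Half (F.prod G) where
  le := by
    rintro (a | a) x
    · show Fin.append (F.u a) 0 ⬝ᵥ x ≤ max (F.N (p1 x)) (G.N (p2 x))
      rw [append_dot, zero_dotProduct, add_zero]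
      exact (hF.half.le a _).trans (le_max_left _ _)
    · show Fin.append 0 (G.u a) ⬝ᵥ x ≤ max (F.N (p1 x)) (G.N (p2 x))
      rw [append_dot, zero_dotProduct, zero_add]
      exact (hG.half.le a _).trans (le_max_right _ _)
  eq := by
    intro x
    show (Sum.elim (fun a => Fin.append (F.u a) 0) (fun a' => Fin.append 0 (G.u a'))
      (if G.N (p2 x) ≤ F.N (p1 x) then Sum.inl (F.ft (p1 x)) else Sum.inr (G.ft (p2 x)))) ⬝ᵥ x
      = max (F.N (p1 x)) (G.N (p2 x))
    split_ifs with h
    · rw [Sum.elim_inl, append_dot, zero_dotProduct, add_zero, hF.half.eq, max_eq_left h]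
    · rw [Sum.elim_inr, append_dot, zero_dotProduct, zero_add, hG.half.eq,
        max_eq_right (not_le.mp h).le]
  smul := by
    intro t ht x
    show (if G.N (p2 (t • x)) ≤ F.N (p1 (t • x)) then (Sum.inl (F.ft (p1 (t • x))) : U ⊕ U')
      else Sum.inr (G.ft (p2 (t • x)))) = if G.N (p2 x) ≤ F.N (p1 x) then
        Sum.inl (F.ft (p1 x)) else Sum.inr (G.ft (p2 x))
    rw [p1_smul, p2_smul, hF.half.smul t ht, hG.half.smul t ht, Half.hom hF.half ht,
      Half.hom hG.half ht]
    simp only [mul_le_mul_iff_right₀ ht]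
  meas := by
    have hm : MeasurableSet {x : Fin (n + m) → ℝ | G.N (p2 x) ≤ F.N (p1 x)} :=
      measurableSet_le ((Half.measN hG.half).comp meas_p2) ((Half.measN hF.half).comp meas_p1)
    rintro (a | a)
    · have e : {x | (F.prod G).ft x = Sum.inl a} =
          {x : Fin (n + m) → ℝ | G.N (p2 x) ≤ F.N (p1 x)} ∩ p1 ⁻¹' {x | F.ft x = a} := by
        ext x
        show (if G.N (p2 x) ≤ F.N (p1 x) then (Sum.inl (F.ft (p1 x)) : U ⊕ U')
          else Sum.inr (G.ft (p2 x))) = Sum.inl a ↔ G.N (p2 x) ≤ F.N (p1 x) ∧ F.ft (p1 x) = a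
        split_ifs with h <;> simp [h]
      rw [e]
      exact hm.inter (meas_p1 (hF.half.meas a))
    · have e : {x | (F.prod G).ft x = Sum.inr a} =
          {x : Fin (n + m) → ℝ | G.N (p2 x) ≤ F.N (p1 x)}ᶜ ∩ p2 ⁻¹' {x | G.ft x = a} := by
        ext x
        show (if G.N (p2 x) ≤ F.N (p1 x) then (Sum.inl (F.ft (p1 x)) : U ⊕ U')
          else Sum.inr (G.ft (p2 x))) = Sum.inr a ↔ ¬ G.N (p2 x) ≤ F.N (p1 x) ∧ G.ft (p2 x) = a
        split_ifs with h <;> simp [h]
      rw [e]
      exact hm.compl.inter (meas_p2 (hG.half.meas a))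
  pos := by
    intro x hx
    show 0 < max (F.N (p1 x)) (G.N (p2 x))
    rcases ne_zero_split hx with h | h
    · exact lt_max_of_lt_left (hF.half.pos _ h)
    · exact lt_max_of_lt_right (hG.half.pos _ h)
  neg := by
    intro x
    show max (F.N (p1 (-x))) (G.N (p2 (-x))) = max (F.N (p1 x)) (G.N (p2 x))
    rw [p1_neg, p2_neg, hF.half.neg, hG.half.neg]
  hit := by
    rintro (a | a)
    · obtain ⟨b, hb⟩ := hF.half.hit a
      refine ⟨(b, G.vt 0), ?_⟩
      show Fin.append (F.u a) 0 ⬝ᵥ Fin.append (F.v b) (G.v (G.vt 0)) = 1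
      rw [append_dot_append, zero_dotProduct, add_zero, hb]
    · obtain ⟨b, hb⟩ := hG.half.hit a
      refine ⟨(F.vt 0, b), ?_⟩
      show Fin.append 0 (G.u a) ⬝ᵥ Fin.append (F.v (F.vt 0)) (G.v b) = 1
      rw [append_dot_append, zero_dotProduct, zero_add, hb]
  strict := by
    rintro (a | a) (a' | a') hne
    · obtain ⟨b, hb, hb'⟩ := hF.half.strict a a' (fun h => hne (by rw [h]))
      refine ⟨(b, G.vt 0), ?_, ?_⟩
      · show Fin.append (F.u a) 0 ⬝ᵥ Fin.append (F.v b) (G.v (G.vt 0)) = 1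
        rw [append_dot_append, zero_dotProduct, add_zero, hb]
      · show Fin.append (F.u a') 0 ⬝ᵥ Fin.append (F.v b) (G.v (G.vt 0)) < 1
        rw [append_dot_append, zero_dotProduct, add_zero]
        exact hb'
    · obtain ⟨b, hb⟩ := hF.half.hit a
      obtain ⟨b', hb'⟩ := Half.opp hG.dhalf (G.u a')
      refine ⟨(b, b'), ?_, ?_⟩
      · show Fin.append (F.u a) 0 ⬝ᵥ Fin.append (F.v b) (G.v b') = 1
        rw [append_dot_append, zero_dotProduct, add_zero, hb]
      · show Fin.append 0 (G.u a') ⬝ᵥ Fin.append (F.v b) (G.v b') < 1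
        rw [append_dot_append, zero_dotProduct, zero_add]
        linarith
    · obtain ⟨b', hb'⟩ := hG.half.hit a
      obtain ⟨b, hb⟩ := Half.opp hF.dhalf (F.u a')
      refine ⟨(b, b'), ?_, ?_⟩
      · show Fin.append 0 (G.u a) ⬝ᵥ Fin.append (F.v b) (G.v b') = 1
        rw [append_dot_append, zero_dotProduct, zero_add, hb']
      · show Fin.append (F.u a') 0 ⬝ᵥ Fin.append (F.v b) (G.v b') < 1
        rw [append_dot_append, zero_dotProduct, add_zero]
        linarith
    · obtain ⟨b, hb, hb'⟩ := hG.half.strict a a' (fun h => hne (by rw [h]))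
      refine ⟨(F.vt 0, b), ?_, ?_⟩
      · show Fin.append 0 (G.u a) ⬝ᵥ Fin.append (F.v (F.vt 0)) (G.v b) = 1
        rw [append_dot_append, zero_dotProduct, zero_add, hb]
      · show Fin.append 0 (G.u a') ⬝ᵥ Fin.append (F.v (F.vt 0)) (G.v b) < 1
        rw [append_dot_append, zero_dotProduct, zero_add]
        exact hb'

lemma dhalf_prod [Fintype U] [Fintype V] [Fintype U'] [Fintype V'] {F : Fr n U V}
    {G : Fr m U' V'} (hF : Good F) (hG : Good G) : Half (F.prod G).dual where
  le := by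
    rintro b y
    show Fin.append (F.v b.1) (G.v b.2) ⬝ᵥ y ≤ F.h (p1 y) + G.h (p2 y)
    rw [append_dot]
    exact add_le_add (hF.dhalf.le b.1 _) (hG.dhalf.le b.2 _)
  eq := by
    intro y
    show Fin.append (F.v (F.vt (p1 y))) (G.v (G.vt (p2 y))) ⬝ᵥ y = F.h (p1 y) + G.h (p2 y)
    rw [append_dot]
    exact congrArg₂ (· + ·) (hF.dhalf.eq _) (hG.dhalf.eq _)
  smul := by
    intro t ht y
    show (F.vt (p1 (t • y)), G.vt (p2 (t • y))) = (F.vt (p1 y), G.vt (p2 y))
    rw [p1_smul, p2_smul]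
    exact congrArg₂ Prod.mk (hF.dhalf.smul t ht _) (hG.dhalf.smul t ht _)
  meas := by
    rintro ⟨b, b'⟩
    have e : {y | (F.prod G).dual.ft y = (b, b')} =
        p1 ⁻¹' {x | F.vt x = b} ∩ p2 ⁻¹' {x | G.vt x = b'} := by
      ext y
      show (F.vt (p1 y), G.vt (p2 y)) = (b, b') ↔ F.vt (p1 y) = b ∧ G.vt (p2 y) = b'
      rw [Prod.mk.injEq]
    rw [e]
    exact (meas_p1 (hF.dhalf.meas b)).inter (meas_p2 (hG.dhalf.meas b'))
  pos := by
    intro y hy
    show 0 < F.h (p1 y) + G.h (p2 y)
    have h1 : 0 ≤ F.h (p1 y) := Half.nonneg hF.dhalf _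
    have h2 : 0 ≤ G.h (p2 y) := Half.nonneg hG.dhalf _
    rcases ne_zero_split hy with h | h
    · have : 0 < F.h (p1 y) := hF.dhalf.pos _ h
      linarith
    · have : 0 < G.h (p2 y) := hG.dhalf.pos _ h
      linarith
  neg := by
    intro y
    show F.h (p1 (-y)) + G.h (p2 (-y)) = F.h (p1 y) + G.h (p2 y)
    rw [p1_neg, p2_neg]
    exact congrArg₂ (· + ·) (hF.dhalf.neg _) (hG.dhalf.neg _)
  hit := by
    rintro ⟨b, b'⟩
    obtain ⟨a, ha⟩ := hF.dhalf.hit b
    refine ⟨Sum.inl a, ?_⟩
    show Fin.append (F.v b) (G.v b') ⬝ᵥ Fin.append (F.u a) 0 = 1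
    rw [append_dot_append, dotProduct_zero, add_zero]
    exact ha
  strict := by
    rintro ⟨b, b'⟩ ⟨c, c'⟩ hne
    by_cases h : b = c
    · have h' : b' ≠ c' := fun h' => hne (by rw [h, h'])
      obtain ⟨a, ha, ha'⟩ := hG.dhalf.strict b' c' h'
      refine ⟨Sum.inr a, ?_, ?_⟩
      · show Fin.append (F.v b) (G.v b') ⬝ᵥ Fin.append 0 (G.u a) = 1
        rw [append_dot_append, dotProduct_zero, zero_add]
        exact ha
      · show Fin.append (F.v c) (G.v c') ⬝ᵥ Fin.append 0 (G.u a) < 1
        rw [append_dot_append, dotProduct_zero, zero_add]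
        exact ha'
    · obtain ⟨a, ha, ha'⟩ := hF.dhalf.strict b c h
      refine ⟨Sum.inl a, ?_, ?_⟩
      · show Fin.append (F.v b) (G.v b') ⬝ᵥ Fin.append (F.u a) 0 = 1
        rw [append_dot_append, dotProduct_zero, add_zero]
        exact ha
      · show Fin.append (F.v c) (G.v c') ⬝ᵥ Fin.append (F.u a) 0 < 1
        rw [append_dot_append, dotProduct_zero, add_zero]
        exact ha'

/-! ### volumes -/

lemma Good.pol_ne_zero {F : Fr n U V} (hF : Good F) : volume.real F.pol ≠ 0 := by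
  intro h
  have := hF.vol
  rw [h, mul_zero] at this
  have h4 : (0 : ℝ) < 4 ^ n / n.factorial := by positivity
  linarith

lemma Good.pol_fin {F : Fr n U V} (hF : Good F) : volume F.pol ≠ ∞ := by
  intro h
  apply Good.pol_ne_zero hF
  rw [measureReal_def, h, ENNReal.toReal_top]

lemma vol_body [Fintype U] [Fintype V] [Fintype U'] [Fintype V'] (h1 : S_app) {F : Fr n U V}
    {G : Fr m U' V'} (hF : Good F) (hG : Good G) :
    volume (F.prod G).body = volume F.body * volume G.body := by
  have mF : MeasurableSet F.body := measurableSet_le (Half.measN hF.half) measurable_const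
  have mG : MeasurableSet G.body := measurableSet_le (Half.measN hG.half) measurable_const
  have mP : MeasurableSet (F.prod G).body :=
    measurableSet_le (Half.measN (half_prod hF hG)) measurable_const
  have e1 : volume (F.prod G).body = ∫⁻ x, (F.prod G).body.indicator (fun _ => (1 : ℝ≥0∞)) x :=
    (lintegral_indicator_one mP).symm
  rw [e1, h1 n m _ (measurable_const.indicator mP)]
  have e2 : ∀ (x1 : Fin n → ℝ) (x2 : Fin m → ℝ),
      (F.prod G).body.indicator (fun _ => (1 : ℝ≥0∞)) (Fin.append x1 x2) =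
        F.body.indicator 1 x1 * G.body.indicator 1 x2 := by
    intro x1 x2
    have hmem : Fin.append x1 x2 ∈ (F.prod G).body ↔ x1 ∈ F.body ∧ x2 ∈ G.body := by
      show max (F.N (p1 (Fin.append x1 x2))) (G.N (p2 (Fin.append x1 x2))) ≤ 1 ↔
        F.N x1 ≤ 1 ∧ G.N x2 ≤ 1
      rw [p1_append, p2_append, max_le_iff]
    by_cases ha : x1 ∈ F.body <;> by_cases hb : x2 ∈ G.body <;>
      simp [Set.indicator, hmem, ha, hb]
  simp only [e2]
  have e3 : ∀ x1 : Fin n → ℝ, ∫⁻ x2 : Fin m → ℝ, F.body.indicator 1 x1 * G.body.indicator 1 x2 =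
      F.body.indicator 1 x1 * volume G.body := by
    intro x1
    rw [lintegral_const_mul _ (measurable_one.indicator mG), lintegral_indicator_one mG]
  simp only [e3]
  rw [lintegral_mul_const _ (measurable_one.indicator mF), lintegral_indicator_one mF]

lemma vol_scale {G : Fr m U' V'} (hG : Good G) {s : ℝ} (hs : 0 ≤ s) :
    volume {y | G.h y ≤ s} = ENNReal.ofReal (s ^ m) * volume G.pol := by
  have e : {y | G.h y ≤ s} = s • G.pol := by
    rcases hs.eq_or_lt with h | h
    · subst h
      have hne : G.pol.Nonempty := ⟨0, by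
        show G.h 0 ≤ 1
        have : G.h 0 = 0 := Half.zero hG.dhalf
        rw [this]; norm_num⟩
      rw [zero_smul_set hne]
      ext y
      constructor
      · intro hy
        exact Half.le_zero hG.dhalf hy
      · intro hy
        have hy' : y = 0 := hy
        rw [hy']
        exact (Half.zero hG.dhalf).le
    · ext y
      rw [Set.mem_smul_set_iff_inv_smul_mem₀ h.ne']
      show G.h y ≤ s ↔ G.h (s⁻¹ • y) ≤ 1
      have : G.h (s⁻¹ • y) = s⁻¹ * G.h y := Half.hom hG.dhalf (inv_pos.mpr h) y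
      rw [this, inv_mul_le_iff₀ h, mul_one]
  rw [e, Measure.addHaar_smul]
  simp [abs_of_nonneg hs]

lemma vol_pol [Fintype U] [Fintype V] [Fintype U'] [Fintype V'] (h1 : S_app) (h2 : S_rad)
    (h3 : S_beta) {F : Fr n U V} {G : Fr m U' V'} (hF : Good F) (hG : Good G) :
    volume (F.prod G).pol = ENNReal.ofReal (n.factorial * m.factorial / (n + m).factorial) *
      (volume F.pol * volume G.pol) := by
  have mFh : Measurable F.h := Half.measN hF.dhalf
  have mGh : Measurable G.h := Half.measN hG.dhalf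
  have mF : MeasurableSet F.pol := measurableSet_le mFh measurable_const
  have mG : MeasurableSet G.pol := measurableSet_le mGh measurable_const
  have mP : MeasurableSet (F.prod G).pol :=
    measurableSet_le (Half.measN (dhalf_prod hF hG)) measurable_const
  have e1 : volume (F.prod G).pol = ∫⁻ x, (F.prod G).pol.indicator (fun _ => (1 : ℝ≥0∞)) x :=
    (lintegral_indicator_one mP).symm
  rw [e1, h1 n m _ (measurable_const.indicator mP)]
  set Φ : ℝ → ℝ≥0∞ := (Iic (1 : ℝ)).indicator (fun r => ENNReal.ofReal ((1 - r) ^ m)) with hΦ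
  have mΦ : Measurable Φ := by
    refine Measurable.indicator ?_ measurableSet_Iic
    exact ENNReal.measurable_ofReal.comp ((measurable_const.sub measurable_id).pow_const m)
  have e2 : ∀ x1 : Fin n → ℝ, ∫⁻ x2 : Fin m → ℝ,
      (F.prod G).pol.indicator (fun _ => (1 : ℝ≥0∞)) (Fin.append x1 x2) =
        Φ (F.h x1) * volume G.pol := by
    intro x1
    have e3 : ∀ x2 : Fin m → ℝ, (F.prod G).pol.indicator (fun _ => (1 : ℝ≥0∞))
        (Fin.append x1 x2) = {y | G.h y ≤ 1 - F.h x1}.indicator 1 x2 := by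
      intro x2
      have hmem : Fin.append x1 x2 ∈ (F.prod G).pol ↔ x2 ∈ {y | G.h y ≤ 1 - F.h x1} := by
        show F.h (p1 (Fin.append x1 x2)) + G.h (p2 (Fin.append x1 x2)) ≤ 1 ↔
          G.h x2 ≤ 1 - F.h x1
        rw [p1_append, p2_append]
        constructor <;> intro h <;> linarith
      by_cases hb : x2 ∈ {y | G.h y ≤ 1 - F.h x1}
      · rw [Set.indicator_of_mem hb, Set.indicator_of_mem (hmem.mpr hb)]; rfl
      · rw [Set.indicator_of_notMem hb, Set.indicator_of_notMem (fun h => hb (hmem.mp h))]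
    simp only [e3]
    rw [lintegral_indicator_one (measurableSet_le mGh measurable_const)]
    by_cases hx : F.h x1 ≤ 1
    · rw [vol_scale hG (by linarith), hΦ, Set.indicator_of_mem (show F.h x1 ∈ Iic (1 : ℝ) from hx)]
    · rw [hΦ, Set.indicator_of_notMem (show F.h x1 ∉ Iic (1 : ℝ) from hx), zero_mul]
      have : {y | G.h y ≤ 1 - F.h x1} = ∅ := by
        ext y
        simp only [mem_ofPred_eq, mem_empty_iff_false, iff_false, not_le]
        have : 0 ≤ G.h y := Half.nonneg hG.dhalf y
        push Not at hx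
        linarith
      rw [this, measure_empty]
  simp only [e2]
  have mΦ' : Measurable fun x1 => Φ (F.h x1) := mΦ.comp mFh
  rw [lintegral_mul_const _ mΦ']
  have e4 := h2 n F.h hF.n_pos mFh (fun y => Half.nonneg hF.dhalf y)
    (fun t ht y => Half.hom hF.dhalf ht y) (Good.pol_fin hF) (fun _ => 1) measurable_const
    (fun _ _ _ => rfl) Φ mΦ
  simp only [mul_one, lintegral_const, Measure.restrict_apply MeasurableSet.univ,
    univ_inter, one_mul] at e4
  rw [e4]
  have e5 : ∫⁻ r in Ioi (0 : ℝ), ENNReal.ofReal (n * r ^ (n - 1)) * Φ r =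
      ENNReal.ofReal (n.factorial * m.factorial / (n + m).factorial) := by
    rw [← (h3 n m hF.n_pos).1]
    rw [← lintegral_indicator measurableSet_Ioi, ← lintegral_indicator measurableSet_Ioc]
    refine lintegral_congr fun r => ?_
    by_cases hr0 : r ∈ Ioi (0 : ℝ)
    · rw [Set.indicator_of_mem hr0]
      by_cases hr1 : r ∈ Iic (1 : ℝ)
      · rw [hΦ, Set.indicator_of_mem hr1, Set.indicator_of_mem (show r ∈ Ioc (0 : ℝ) 1 from
          ⟨hr0, hr1⟩), ← ENNReal.ofReal_mul (by
            have : (0 : ℝ) < r := hr0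
            positivity)]
      · rw [hΦ, Set.indicator_of_notMem hr1, Set.indicator_of_notMem (fun h => hr1 h.2), mul_zero]
    · rw [Set.indicator_of_notMem hr0, Set.indicator_of_notMem (fun h => hr0 h.1)]
  rw [e5]
  show _ * volume F.pol * volume G.pol = _
  rw [mul_assoc]

/-- A4: products of good frames are good, with their volumes -/
theorem gprod (h1 : S_app) (h2 : S_rad) (h3 : S_beta) : S_gprod := by
  intro n m U V U' V' _ _ _ _ F G hF hG
  have hb := vol_body h1 hF hG
  have hp := vol_pol h1 h2 h3 hF hG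
  refine ⟨⟨by have := hF.n_pos; omega, half_prod hF hG, dhalf_prod hF hG, ?_, ?_⟩, hb, hp⟩
  · rintro (a | a) b
    · show Fin.append (F.u a) 0 ⬝ᵥ Fin.append (F.v b.1) (G.v b.2) ≤ 1
      rw [append_dot_append, zero_dotProduct, add_zero]
      exact hF.le_one _ _
    · show Fin.append 0 (G.u a) ⬝ᵥ Fin.append (F.v b.1) (G.v b.2) ≤ 1
      rw [append_dot_append, zero_dotProduct, zero_add]
      exact hG.le_one _ _
  · rw [measureReal_def, measureReal_def, hb, hp]
    rw [ENNReal.toReal_mul, ENNReal.toReal_mul, ENNReal.toReal_mul,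
      ENNReal.toReal_ofReal (by positivity)]
    have vF := hF.vol
    have vG := hG.vol
    rw [measureReal_def, measureReal_def] at vF vG
    have : (volume F.body).toReal * (volume G.body).toReal *
        ((n.factorial : ℝ) * m.factorial / (n + m).factorial *
          ((volume F.pol).toReal * (volume G.pol).toReal)) =
        ((volume F.body).toReal * (volume F.pol).toReal) *
          ((volume G.body).toReal * (volume G.pol).toReal) *
          ((n.factorial : ℝ) * m.factorial / (n + m).factorial) := by ring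
    rw [this, vF, vG, pow_add]
    have f1 : (n.factorial : ℝ) ≠ 0 := by positivity
    have f2 : (m.factorial : ℝ) ≠ 0 := by positivity
    have f3 : ((n + m).factorial : ℝ) ≠ 0 := by positivity
    field_simp

end Pool.Agent.TH73.LP931.Gprod
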